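import Pool.Agent.Helper76.CV.Goals

/-! # Project CV (MP_eec6f5_gt), packet WRB: the differential of the wrapping -/

set_option autoImplicit false

open scoped ContDiff
open Filter Topology

namespace Pool.Agent.Helper18.CV.WRB

open Pool.Agent.Helper76.CV

variable {r : ℕ}

theorem q0 (x : ℝ × E (r + 3)) : Q x 0 = (5 / 4 + x.2 0) * Real.cos (4 / 5 * x.1) := rfl

theorem q1 (x : ℝ × E (r + 3)) :
    Q x (Fin.succ 0) = (5 / 4 + x.2 0) * Real.sin (4 / 5 * x.1) := rfl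

theorem q2 (x : ℝ × E (r + 3)) (i : Fin (r + 2)) : Q x i.succ.succ = x.2 i.succ := rfl

theorem cd (i : Fin (r + 3)) : ContDiff ℝ ∞ fun x : ℝ × E (r + 3) => x.2 i := by
  have h : ContDiff ℝ ∞ fun x : ℝ × E (r + 3) => (EuclideanSpace.proj i : E (r + 3) →L[ℝ] ℝ) x.2 :=
    (EuclideanSpace.proj i : E (r + 3) →L[ℝ] ℝ).contDiff.comp contDiff_snd
  exact h

theorem Q_smooth : ContDiff ℝ ∞ (Q (r := r)) := by
  rw [contDiff_euclidean]
  intro i
  have h1 : ContDiff ℝ ∞ fun x : ℝ × E (r + 3) => 4 / 5 * x.1 := contDiff_const.mul contDiff_fst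
  refine Fin.cases ?_ (fun i => ?_) i
  · exact (contDiff_const.add (cd 0)).mul h1.cos
  · refine Fin.cases ?_ (fun i => ?_) i
    · exact (contDiff_const.add (cd 0)).mul h1.sin
    · exact cd i.succ

theorem f_smooth : ContDiff ℝ ∞ (f (r := r)) := by
  have h0 : ContDiff ℝ ∞ fun p : V r => Q p.1 := Q_smooth.comp contDiff_fst
  have h : ContDiff ℝ ∞ fun p : V r => (4 / 9 : ℝ) • Q p.1 := h0.const_smul (4 / 9 : ℝ)
  exact h

theorem fderiv_Q (x h : ℝ × E (r + 3)) :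
    fderiv ℝ (Q (r := r)) x h = Rf (4 / 5 * x.1) h.2 (wr x.2 * h.1) := by
  have hd : HasFDerivAt (Q (r := r)) (fderiv ℝ (Q (r := r)) x) x :=
    (Q_smooth.differentiable (by simp) x).hasFDerivAt
  have hl : HasDerivAt (fun t : ℝ => Q (x + t • h)) (fderiv ℝ (Q (r := r)) x h) 0 :=
    hd.hasLineDerivAt h
  have hi : ∀ i, HasDerivAt (fun t : ℝ => Q (x + t • h) i) ((fderiv ℝ (Q (r := r)) x h) i) 0 := by
    intro i
    exact (EuclideanSpace.proj i : E (r + 4) →L[ℝ] ℝ).hasFDerivAt.comp_hasDerivAt 0 hl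
  have hy : ∀ i, HasDerivAt (fun t : ℝ => (x + t • h).2 i) (h.2 i) 0 := by
    intro i
    have h1 : HasDerivAt (fun t : ℝ => x.2 i + t * h.2 i) (0 + 1 * h.2 i) 0 :=
      (hasDerivAt_const _ _).add ((hasDerivAt_id (0 : ℝ)).mul_const _)
    simpa using h1
  have ht : HasDerivAt (fun t : ℝ => 4 / 5 * (x + t • h).1) (4 / 5 * h.1) 0 := by
    have h1 : HasDerivAt (fun t : ℝ => 4 / 5 * (x.1 + t * h.1)) (4 / 5 * (0 + 1 * h.1)) 0 :=
      ((hasDerivAt_const _ _).add ((hasDerivAt_id (0 : ℝ)).mul_const _)).const_mul _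
    simpa using h1
  ext i
  refine Fin.cases ?_ (fun i => ?_) i
  · have h1 : HasDerivAt (fun t : ℝ => (5 / 4 + (x + t • h).2 0) * Real.cos (4 / 5 * (x + t • h).1))
        ((0 + h.2 0) * Real.cos (4 / 5 * (x + (0 : ℝ) • h).1) + (5 / 4 + (x + (0 : ℝ) • h).2 0) *
          (-Real.sin (4 / 5 * (x + (0 : ℝ) • h).1) * (4 / 5 * h.1))) 0 :=
      ((hasDerivAt_const _ _).add (hy 0)).mul ht.cos
    rw [(hi 0).unique h1, zero_smul, add_zero]
    change _ = h.2 0 * Real.cos (4 / 5 * x.1) - wr x.2 * h.1 * Real.sin (4 / 5 * x.1)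
    unfold wr
    ring
  · refine Fin.cases ?_ (fun i => ?_) i
    · have h1 : HasDerivAt (fun t : ℝ => (5 / 4 + (x + t • h).2 0) * Real.sin (4 / 5 * (x + t • h).1))
          ((0 + h.2 0) * Real.sin (4 / 5 * (x + (0 : ℝ) • h).1) + (5 / 4 + (x + (0 : ℝ) • h).2 0) *
            (Real.cos (4 / 5 * (x + (0 : ℝ) • h).1) * (4 / 5 * h.1))) 0 :=
        ((hasDerivAt_const _ _).add (hy 0)).mul ht.sin
      rw [(hi (Fin.succ 0)).unique h1, zero_smul, add_zero]
      change _ = h.2 0 * Real.sin (4 / 5 * x.1) + wr x.2 * h.1 * Real.cos (4 / 5 * x.1)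
      unfold wr
      ring
    · rw [(hi i.succ.succ).unique (hy i.succ)]
      rfl

theorem t : Pool.Agent.Helper76.CV.WRB := by
  intro r
  refine ⟨Q_smooth, f_smooth, fderiv_Q, fun p ξ => ?_⟩
  have hd : HasFDerivAt (Q (r := r)) (fderiv ℝ (Q (r := r)) p.1) p.1 :=
    (Q_smooth.differentiable (by simp) p.1).hasFDerivAt
  have h1 : HasFDerivAt (f (r := r))
      ((4 / 9 : ℝ) • (fderiv ℝ (Q (r := r)) p.1).comp (ContinuousLinearMap.fst ℝ _ _)) p :=
    (hd.comp p hasFDerivAt_fst).const_smul (4 / 9 : ℝ)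
  rw [h1.fderiv, ← fderiv_Q]
  rfl

end Pool.Agent.Helper18.CV.WRB
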